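import Mathlib
import Pool.Agent.X34.E.E20
import Pool.Agent.X34.E.E4

set_option autoImplicit false

/-!
# Two consecutive primes at distance at most 212 between the consecutive odd squares, for a positive proportion of them

The question is whether every interval `I_k = ((2 k - 1) ^ 2, (2 k + 1) ^ 2)` contains two primes.  For a positive
proportion of the `k` the interval `I_k` contains at least `c k / (log k) ^ 45` pairs of CONSECUTIVE primes with
one and the same difference `h ≤ 212`; the same for the primes of a residue class `a` modulo `q`, with `h = j lcm (2, q)`,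
`j ≤ 106`.
-/

open Finset Filter

namespace Pool.Agent.Results.MP_5f6ee5_nt.GapsAtMost212

/-- `p ≡ a (mod q)` is a prime and the next prime is `p + h` -/
def Starts (q a h p : ℕ) : Prop :=
  p ≡ a [MOD q] ∧ p.Prime ∧ (p + h).Prime ∧ ∀ m, p < m → m < p + h → ¬ m.Prime

/-- the number of the primes `p ≡ a (mod q)` for which `p` and the next prime `p + h` lie in
`((2 k - 1) ^ 2, (2 k + 1) ^ 2)` -/
noncomputable def pairs (q a h k : ℕ) : ℕ :=
  Set.ncard {p : ℕ | (2 * k - 1) ^ 2 < p ∧ p + h < (2 * k + 1) ^ 2 ∧ Starts q a h p}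

/-- the number of the `1 ≤ k ≤ x` with at least `c k / (log k) ^ 45` such primes -/
noncomputable def good (c : ℝ) (q a h x : ℕ) : ℕ :=
  Set.ncard {k : ℕ | 1 ≤ k ∧ k ≤ x ∧ c * (k / Real.log k ^ 45) ≤ (pairs q a h k : ℝ)}

/-- For all `q ≥ 1` and `a` prime to `q` there is `c > 0` such that for all large `x` there is `1 ≤ j ≤ 106` such that
for at least `c x` of the `k ≤ x` the interval `((2 k - 1) ^ 2, (2 k + 1) ^ 2)` contains at least
`c k / (log k) ^ 45` primes `p ≡ a (mod q)` together with the next prime, which is `p + j lcm (2, q)`. One `j` has this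
property for arbitrarily large `x`. -/
theorem result (q a : ℕ) (hq : 1 ≤ q) (ha : a.Coprime q) :
    ∃ c : ℝ, 0 < c ∧
      (∀ᶠ x : ℕ in atTop, ∃ j : ℕ, 1 ≤ j ∧ j ≤ 106 ∧ c * x ≤ (good c q a (j * Nat.lcm 2 q) x : ℝ)) ∧
      ∃ j : ℕ, 1 ≤ j ∧ j ≤ 106 ∧ ∃ᶠ x : ℕ in atTop, c * x ≤ (good c q a (j * Nat.lcm 2 q) x : ℝ) := by
  obtain ⟨a', ha1, ha2⟩ := Pool.Agent.X34.E.lift_class q a hq ha
  have hM0 : 0 < Nat.lcm 2 q := Nat.lcm_pos (by norm_num) hq
  have hM2 : 2 ∣ Nat.lcm 2 q := Nat.dvd_lcm_left 2 q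
  have hMq : q ∣ Nat.lcm 2 q := Nat.dvd_lcm_right 2 q
  obtain ⟨c, hc, h⟩ := Pool.Agent.X34.E.powers_pos Pool.Agent.X34.E.dhl45R 2 le_rfl (Nat.lcm 2 q) a' hM0 ha2
    Pool.Agent.X34.E.G45 Pool.Agent.X34.E.G45_card
    (fun p hp hpM => Pool.Agent.X34.E.G45_adm p hp (fun h2 => hpM (h2 ▸ hM2)))
  obtain ⟨c', hc'⟩ : ∃ c' : ℝ, c' = c / 2 ^ 46 := ⟨_, rfl⟩
  have hc'0 : 0 < c' := by rw [hc']; positivity
  have hcc : c' ≤ c / 2 := by
    rw [hc']
    apply div_le_div_of_nonneg_left hc.le (by norm_num) (by norm_num)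
  have hall : ∀ᶠ x : ℕ in atTop, ∃ j : ℕ, 1 ≤ j ∧ j ≤ 106 ∧
      c' * x ≤ (good c' q a (j * Nat.lcm 2 q) x : ℝ) := by
    filter_upwards [h, eventually_ge_atTop 3] with x hx hx3
    obtain ⟨g, hg, g', hg', hgg, hx⟩ := hx
    have h106 := Pool.Agent.X34.E.G45_le g' hg'
    refine ⟨g' - g, by omega, by omega, ?_⟩
    obtain ⟨h, hh⟩ : ∃ h, h = (g' - g) * Nat.lcm 2 q := ⟨_, rfl⟩
    rw [← hh] at hx ⊢
    obtain ⟨A, hA⟩ : ∃ A : Set ℕ, A = {m : ℕ | x ≤ m ∧ m < 2 * x ∧
      c * (m : ℝ) ^ (2 - 1) / Real.log m ^ 45 ≤ (Set.ncard {p : ℕ | m ^ 2 < p ∧ p + h < (m + 1) ^ 2 ∧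
          Pool.Agent.X34.E.Follow (Nat.lcm 2 q) a' h p} : ℝ)} := ⟨_, rfl⟩
    obtain ⟨B, hB⟩ : ∃ B : Set ℕ, B = {k : ℕ | 1 ≤ k ∧ k ≤ x ∧
      c' * (k / Real.log k ^ 45) ≤ (pairs q a h k : ℝ)} := ⟨_, rfl⟩
    rw [← hA] at hx
    have hgood : good c' q a h x = B.ncard := by rw [hB]; rfl
    rw [hgood]
    have hBfin : B.Finite := (Set.finite_Iic x).subset fun k hk => by rw [hB] at hk; exact hk.2.1
    have hAfin : A.Finite := (Set.finite_Iio (2 * x)).subset fun k hk => by rw [hA] at hk; exact hk.2.1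
    -- the map
    have hmap : ∀ m ∈ A, (m + 1) / 2 ∈ B := by
      intro m hm
      rw [hA] at hm
      obtain ⟨hm1, hm2, hm3⟩ := hm
      obtain ⟨k, hk⟩ : ∃ k, k = (m + 1) / 2 := ⟨_, rfl⟩
      rw [← hk, hB]
      have hk1 : 2 ≤ k := by omega
      refine ⟨by omega, by omega, ?_⟩
      have hkm : k ≤ m := by omega
      have hm2k : m ≤ 2 * k := by omega
      have hsub : {p : ℕ | m ^ 2 < p ∧ p + h < (m + 1) ^ 2 ∧
          Pool.Agent.X34.E.Follow (Nat.lcm 2 q) a' h p} ⊆
          {p : ℕ | (2 * k - 1) ^ 2 < p ∧ p + h < (2 * k + 1) ^ 2 ∧ Starts q a h p} := by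
        rintro p ⟨h1, h2, h3⟩
        refine ⟨lt_of_le_of_lt (Nat.pow_le_pow_left (by omega) 2) h1,
          lt_of_lt_of_le h2 (Nat.pow_le_pow_left (by omega) 2), ?_, h3.2⟩
        exact (h3.1.of_dvd hMq).trans ha1
      have hcard : (Set.ncard {p : ℕ | m ^ 2 < p ∧ p + h < (m + 1) ^ 2 ∧
          Pool.Agent.X34.E.Follow (Nat.lcm 2 q) a' h p} : ℝ) ≤ (pairs q a h k : ℝ) := by
        have : Set.ncard {p : ℕ | m ^ 2 < p ∧ p + h < (m + 1) ^ 2 ∧
          Pool.Agent.X34.E.Follow (Nat.lcm 2 q) a' h p} ≤ pairs q a h k :=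
          Set.ncard_le_ncard hsub ((Set.finite_Iio ((2 * k + 1) ^ 2)).subset fun p hp => by
            have := hp.2.1
            rw [Set.mem_Iio]
            omega)
        exact_mod_cast this
      refine le_trans ?_ (hm3.trans hcard)
      have hkr : (2 : ℝ) ≤ k := by exact_mod_cast hk1
      have hlk : 0 < Real.log k := Real.log_pos (by linarith)
      have hmr : (k : ℝ) ≤ m := by exact_mod_cast hkm
      have hlm : 0 < Real.log m := Real.log_pos (by linarith)
      have hlog : Real.log m ≤ 2 * Real.log k := by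
        have h4 : (m : ℝ) ≤ (k : ℝ) ^ 2 := by
          have h5 : (m : ℝ) ≤ 2 * k := by exact_mod_cast hm2k
          nlinarith
        have h6 := Real.log_le_log (by linarith) h4
        rw [Real.log_pow] at h6
        exact_mod_cast h6
      have hpow : Real.log m ^ 45 ≤ 2 ^ 45 * Real.log k ^ 45 := by
        rw [← mul_pow]
        exact pow_le_pow_left₀ hlm.le hlog 45
      have e1 : (m : ℝ) ^ (2 - 1) = m := by norm_num
      rw [e1, le_div_iff₀ (by positivity)]
      calc c' * (k / Real.log k ^ 45) * Real.log m ^ 45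
          ≤ c' * (k / Real.log k ^ 45) * (2 ^ 45 * Real.log k ^ 45) :=
            mul_le_mul_of_nonneg_left hpow (by positivity)
        _ = c' * 2 ^ 45 * k := by field_simp
        _ = c / 2 * k := by rw [hc']; ring
        _ ≤ c * m := by
            have : c / 2 * k ≤ c / 2 * m := mul_le_mul_of_nonneg_left hmr (by positivity)
            have : 0 ≤ c / 2 * m := by positivity
            linarith
    have hcount : A.ncard ≤ 2 * B.ncard := by
      have h1 : A ⊆ (fun k => 2 * k - 1) '' B ∪ (fun k => 2 * k) '' B := by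
        intro m hm
        have h2 := hmap m hm
        rw [hA] at hm
        have hm1 := hm.1
        rcases Nat.even_or_odd' m with ⟨i, hi | hi⟩
        · right
          exact ⟨(m + 1) / 2, h2, by simp only; omega⟩
        · left
          exact ⟨(m + 1) / 2, h2, by simp only; omega⟩
      calc A.ncard ≤ ((fun k => 2 * k - 1) '' B ∪ (fun k => 2 * k) '' B).ncard :=
            Set.ncard_le_ncard h1 ((hBfin.image _).union (hBfin.image _))
        _ ≤ ((fun k => 2 * k - 1) '' B).ncard + ((fun k => 2 * k) '' B).ncard := Set.ncard_union_le _ _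
        _ ≤ B.ncard + B.ncard := add_le_add (Set.ncard_image_le hBfin) (Set.ncard_image_le hBfin)
        _ = 2 * B.ncard := by ring
    have h2 : (A.ncard : ℝ) ≤ 2 * B.ncard := by exact_mod_cast hcount
    have h3 : c' * x ≤ c / 2 * x := mul_le_mul_of_nonneg_right hcc (Nat.cast_nonneg _)
    linarith
  refine ⟨c', hc'0, hall, ?_⟩
  by_contra hcon
  push Not at hcon
  have h2 : ∀ j ∈ Icc 1 106, ∀ᶠ x : ℕ in atTop, ¬ c' * x ≤ (good c' q a (j * Nat.lcm 2 q) x : ℝ) := by
    intro j hj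
    rw [mem_Icc] at hj
    have h3 := hcon j hj.1 hj.2
    filter_upwards [h3] with x hx
    exact not_le.2 hx
  have h3 := (Filter.eventually_all_finset _).2 h2
  obtain ⟨x, hx1, hx2⟩ := (hall.and h3).exists
  obtain ⟨j, hj1, hj2, hj3⟩ := hx1
  exact hx2 j (mem_Icc.2 ⟨hj1, hj2⟩) hj3

end Pool.Agent.Results.MP_5f6ee5_nt.GapsAtMost212
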