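import Pool.Agent.L5helper4.DL.Int2
import Pool.Agent.L5helper4.DL.Win

/-!
# Between consecutive odd squares: popular differences of almost primes and of dense sets of primes

Let `I_k = ((2 k - 1) ^ 2, (2 k + 1) ^ 2)`. The number of the primes in `I_k` should be about `4 k / log k`, and the
number of the `n` for which the `m` numbers `n + j d` are primes of `I_k` should be `≍ k / (log k) ^ m`.

1. (Relative theorem.) Let `P` be ANY set of at least `δ k / log k` integers of `I_k` without prime factors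
`< k ^ κ`, for instance primes. Then for EVERY `D` between `(log k) ^ B` and `k / (log k) ^ B` at least `c D` of the
differences `d ≤ D` have the property that ALL the parts `F ∋ 0` of the progression `0, 1, …, m - 1` occur in `P` with
the difference `d` at least `c k / (log k) ^ |F|` times.

2. Every `I_k`, `k` large, contains at least `c k / log k` odd integers with at most three prime factors, all of them
at least `k ^ (6/25)`, and 1. holds for this set.

3. For all but `K ^ (1/4)` of the `k` in `(K, 2 K]` the interval `I_k` contains at least `c k / log k` odd integers with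
at most two prime factors, both at least `k ^ (1/4)`, and 1. holds for this set.

Method. A sieve majorant in windows of length `D` (`Pool.Agent.Y843.HS`, helper843 and others), the relative Szemerédi
theorem of Conlon, Fox and Zhao (`Pool.Agent.Y727.PSP`, helper727 and others), and, for the differences and the parts
of the progression, `Pool.Agent.L5helper4.DL`; the weighted linear sieve and the large sieve of helper882
(`Pool.Agent.Y882`).
-/

set_option autoImplicit false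

namespace Pool.Agent.Results.MP_5f6ee5_nt.PopularDifferences

open Finset Filter

/-- the integers strictly between `(2 k - 1) ^ 2` and `(2 k + 1) ^ 2` -/
def I (k : ℕ) : Finset ℕ := Ioo ((2 * k - 1) ^ 2) ((2 * k + 1) ^ 2)

open Classical in
/-- the odd integers of `I k` with at most `r` prime factors (with multiplicity), all of them at least `w` -/
noncomputable def almost (r : ℕ) (w : ℝ) (k : ℕ) : Finset ℕ :=
  (I k).filter (fun n => Odd n ∧ n.primeFactorsList.length ≤ r ∧ ∀ q : ℕ, q.Prime → q ∣ n → w ≤ q)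

open Classical in
/-- the number of the elements `n` of `P` such that `n + j d` is in `P` for all `j ∈ F` -/
noncomputable def occurrences (P : Finset ℕ) (F : Finset ℕ) (d : ℕ) : ℕ :=
  (P.filter (fun n => ∀ j ∈ F, n + j * d ∈ P)).card

open Classical in
/-- For all `D` between `(log k) ^ B` and `k / (log k) ^ B` at least `c D` of the `1 ≤ d ≤ D` are such that for
every `F ⊆ {0, …, m - 1}` with `0 ∈ F` at least `c k / (log k) ^ |F|` elements `n` of `P` are such that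
`n + j d` is in `P` for all `j ∈ F`. -/
def Popular (m B : ℕ) (c : ℝ) (k : ℕ) (P : Finset ℕ) : Prop :=
  ∀ D : ℕ, Real.log k ^ B ≤ D → D * Real.log k ^ B ≤ k →
    c * D ≤ (((Icc 1 D).filter (fun d => ∀ F ⊆ range m, 0 ∈ F →
      c * (k / Real.log k ^ F.card) ≤ (occurrences P F d : ℝ))).card : ℝ)

lemma sq_eq (k : ℕ) (hk : 1 ≤ k) : (2 * k + 1) ^ 2 = (2 * k - 1) ^ 2 + 8 * k := by
  obtain ⟨j, rfl⟩ : ∃ j, k = j + 1 := ⟨k - 1, by omega⟩
  have : 2 * (j + 1) - 1 = 2 * j + 1 := by omega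
  rw [this]
  ring

lemma mem_I {k n : ℕ} (hk : 1 ≤ k) : n ∈ I k ↔ (2 * k - 1) ^ 2 < n ∧ n < (2 * k - 1) ^ 2 + 8 * k := by
  unfold I
  rw [mem_Ioo, sq_eq k hk]

lemma sys : Pool.Agent.W123.RU.Poly.Sys (fun _ : Fin 1 => (Polynomial.X : Polynomial ℤ)) where
  irr _ := Polynomial.irreducible_X
  deg _ := by
    rw [Polynomial.natDegree_X]
    norm_num
  lead _ := by
    rw [Polynomial.leadingCoeff_X]
    norm_num
  inj _ _ _ := Subsingleton.elim _ _
  adm p hp := by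
    refine ⟨1, fun _ h => ?_⟩
    rw [Polynomial.eval_X] at h
    exact hp.one_lt.ne' (Nat.dvd_one.1 (by exact_mod_cast h))

/-- the relative theorem -/
theorem rel (m : ℕ) (κ δ : ℝ) (hκ : 0 < κ) (hδ : 0 < δ) :
    ∃ (B : ℕ) (c : ℝ), 0 < c ∧ ∀ᶠ k : ℕ in atTop, ∀ P ⊆ I k,
      (∀ n ∈ P, ∀ q : ℕ, q.Prime → q ∣ n → (k : ℝ) ^ κ ≤ q) →
      δ * (k / Real.log k) ≤ P.card → Popular m B c k P := by
  classical
  obtain ⟨κ', hκ'0, hκ'1, hκ'2⟩ : ∃ κ' : ℝ, 0 < κ' ∧ κ' ≤ κ / 2 ∧ κ' ≤ 1 :=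
    ⟨min (κ / 2) 1, lt_min (by positivity) one_pos, min_le_left _ _, min_le_right _ _⟩
  obtain ⟨B, H₀, c, hc, hrel⟩ := Pool.Agent.L5helper4.DL.polyWin
    (fun _ : Fin 1 => (Polynomial.X : Polynomial ℤ)) sys m κ' (δ / 8) hκ'0 hκ'2 (by positivity)
  simp only [Fintype.card_fin, one_mul, pow_one] at hrel
  have h2m : (1 : ℝ) ≤ 2 ^ m := one_le_pow₀ (by norm_num)
  refine ⟨B + 1, c / 2 ^ m, by positivity, ?_⟩
  have tN : Tendsto (fun N : ℕ => (N : ℝ)) atTop atTop := tendsto_natCast_atTop_atTop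
  filter_upwards [eventually_ge_atTop (max H₀ 9),
    (Real.tendsto_log_atTop.comp tN).eventually_ge_atTop (2 ^ B)] with k hk hlB
  simp only [Function.comp] at hlB
  intro P hP hrough hcard D hD1 hD2
  have hk9 : 9 ≤ k := (le_max_right _ _).trans hk
  have hkr : (9 : ℝ) ≤ k := by exact_mod_cast hk9
  have hk0 : (0 : ℝ) < k := by linarith
  have hlk : 0 < Real.log k := Real.log_pos (by linarith)
  obtain ⟨H, hH⟩ : ∃ H, H = 8 * k := ⟨_, rfl⟩
  have hHr : (H : ℝ) = 8 * k := by rw [hH]; push_cast; ring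
  have hH0 : H₀ ≤ H := by
    have : H₀ ≤ k := (le_max_left _ _).trans hk
    omega
  have hHk : (k : ℝ) ≤ H := by linarith
  have hHk2 : (H : ℝ) < (k : ℝ) ^ 2 := by nlinarith
  have hHp : (0 : ℝ) < H := by linarith
  have hH1 : (1 : ℝ) < H := by linarith
  have hlH0 : 0 < Real.log H := Real.log_pos hH1
  have hlH1 : Real.log H ≤ 2 * Real.log k := by
    have := Real.log_le_log hHp hHk2.le
    rw [Real.log_pow] at this
    exact_mod_cast this
  have hlH2 : Real.log k ≤ Real.log H := Real.log_le_log hk0 hHk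
  have hsub : P ⊆ Ioc ((2 * k - 1) ^ 2) ((2 * k - 1) ^ 2 + H) := by
    intro n hn
    have h1 := (mem_I (by omega)).1 (hP hn)
    rw [mem_Ioc]
    omega
  have key := hrel H ((2 * k - 1) ^ 2) hH0 P hsub (by
    intro n hn _ q hq hd
    rw [Polynomial.eval_X] at hd
    refine lt_of_lt_of_le ?_ (hrough n hn q hq (by exact_mod_cast hd))
    calc (H : ℝ) ^ κ' ≤ (H : ℝ) ^ (κ / 2) := Real.rpow_le_rpow_of_exponent_le hH1.le hκ'1
      _ < ((k : ℝ) ^ 2) ^ (κ / 2) := Real.rpow_lt_rpow hHp.le hHk2 (by linarith)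
      _ = (k : ℝ) ^ κ := by
          rw [← Real.rpow_natCast, ← Real.rpow_mul hk0.le]
          congr 1
          push_cast
          ring) (by
    refine le_trans ?_ hcard
    calc δ / 8 * (H / Real.log H) ≤ δ / 8 * (8 * k / Real.log k) := by
          rw [hHr]
          rw [hHr] at hlH2
          gcongr
      _ = δ * (k / Real.log k) := by ring) D (by
    refine le_trans ?_ hD1
    calc Real.log H ^ B ≤ (2 * Real.log k) ^ B := pow_le_pow_left₀ hlH0.le hlH1 B
      _ = 2 ^ B * Real.log k ^ B := mul_pow _ _ _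
      _ ≤ Real.log k * Real.log k ^ B := by gcongr
      _ = Real.log k ^ (B + 1) := by ring) (by
    refine le_trans ?_ (hD2.trans hHk)
    apply mul_le_mul_of_nonneg_left _ (Nat.cast_nonneg _)
    calc Real.log H ^ B ≤ (2 * Real.log k) ^ B := pow_le_pow_left₀ hlH0.le hlH1 B
      _ = 2 ^ B * Real.log k ^ B := mul_pow _ _ _
      _ ≤ Real.log k * Real.log k ^ B := by gcongr
      _ = Real.log k ^ (B + 1) := by ring)
  calc c / 2 ^ m * D ≤ c * D := by
        apply mul_le_mul_of_nonneg_right _ (Nat.cast_nonneg _)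
        exact div_le_self hc.le h2m
    _ ≤ _ := key
    _ ≤ _ := by
        apply Nat.cast_le.2
        apply card_le_card
        intro d hd
        rw [mem_filter] at hd ⊢
        refine ⟨hd.1, fun F hF h0 => ?_⟩
        have h1 := hd.2 F hF h0
        unfold occurrences
        refine le_trans ?_ h1
        have hFm : F.card ≤ m := by
          have := card_le_card hF
          rwa [card_range] at this
        have h2 : Real.log H ^ F.card ≤ 2 ^ m * Real.log k ^ F.card := by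
          calc Real.log H ^ F.card ≤ (2 * Real.log k) ^ F.card := pow_le_pow_left₀ hlH0.le hlH1 _
            _ = 2 ^ F.card * Real.log k ^ F.card := mul_pow _ _ _
            _ ≤ 2 ^ m * Real.log k ^ F.card := by
                apply mul_le_mul_of_nonneg_right _ (by positivity)
                exact pow_le_pow_right₀ (by norm_num) hFm
        calc c / 2 ^ m * (k / Real.log k ^ F.card) = c * (k / (2 ^ m * Real.log k ^ F.card)) := by
              field_simp
          _ ≤ c * (H / Real.log H ^ F.card) := by gcongr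

open Classical in
lemma mem_almost {r k n : ℕ} {w : ℝ} (h : n ∈ almost r w k) :
    n ∈ I k ∧ ∀ q : ℕ, q.Prime → q ∣ n → w ≤ q := by
  unfold almost at h
  rw [mem_filter] at h
  exact ⟨h.1, h.2.2.2⟩

open Classical in
/-- a window of almost primes inside `I k` -/
lemma window {r k N L : ℕ} {w w' : ℝ} (hk : 1 ≤ k) (hw : w ≤ w') (h2 : 2 < w')
    (hN : (2 * k - 1) ^ 2 ≤ N) (hL : N + L < (2 * k - 1) ^ 2 + 8 * k) :
    (((Ioc N (N + L)).filter (fun n => n.primeFactorsList.length ≤ r ∧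
      ∀ q : ℕ, q.Prime → q ∣ n → w' ≤ q)).card : ℝ) ≤ ((almost r w k).card : ℝ) := by
  apply Nat.cast_le.2
  apply card_le_card
  intro n hn
  rw [mem_filter, mem_Ioc] at hn
  obtain ⟨⟨h3, h4⟩, h5, h6⟩ := hn
  unfold almost
  rw [mem_filter, mem_I hk]
  refine ⟨⟨by omega, by omega⟩, ?_, h5, fun q hq hd => hw.trans (h6 q hq hd)⟩
  rw [← Nat.not_even_iff_odd, even_iff_two_dvd]
  intro h7
  have := h6 2 Nat.prime_two h7
  push_cast at this
  linarith

/-- every interval -/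
theorem every : ∃ c : ℝ, 0 < c ∧ ∀ᶠ k : ℕ in atTop,
    c * (k / Real.log k) ≤ ((almost 3 ((k : ℝ) ^ (6 / 25 : ℝ)) k).card : ℝ) := by
  classical
  obtain ⟨δ, hδ, H₀, hlong⟩ := Pool.Agent.L5helper4.DL.long 3 2 (by norm_num) (by norm_num)
  refine ⟨δ / 2, by positivity, ?_⟩
  have tN : Tendsto (fun N : ℕ => (N : ℝ)) atTop atTop := tendsto_natCast_atTop_atTop
  filter_upwards [eventually_ge_atTop (max H₀ 9),
    ((tendsto_rpow_atTop (show (0 : ℝ) < 6 / 25 by norm_num)).comp tN).eventually_gt_atTop 2]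
    with k hk hk2
  simp only [Function.comp] at hk2
  have hk9 : 9 ≤ k := (le_max_right _ _).trans hk
  have hkr : (9 : ℝ) ≤ k := by exact_mod_cast hk9
  have hk0 : (0 : ℝ) < k := by linarith
  have hlk : 0 < Real.log k := Real.log_pos (by linarith)
  obtain ⟨H, hH⟩ : ∃ H, H = 8 * k - 1 := ⟨_, rfl⟩
  have hH1 : H + 1 = 8 * k := by omega
  have hH1r : (H : ℝ) + 1 = 8 * k := by exact_mod_cast hH1
  have hH0 : H₀ ≤ H := by
    have : H₀ ≤ k := (le_max_left _ _).trans hk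
    omega
  have hHk : (k : ℝ) ≤ H := by linarith
  have hHk2 : (H : ℝ) ≤ (k : ℝ) ^ 2 := by nlinarith
  have hHp : (0 : ℝ) < H := by linarith
  have hlH0 : 0 < Real.log H := Real.log_pos (by linarith)
  have hlH1 : Real.log H ≤ 2 * Real.log k := by
    have := Real.log_le_log hHp hHk2
    rw [Real.log_pow] at this
    exact_mod_cast this
  have hN : (((2 * k - 1) ^ 2 : ℕ) : ℝ) ≤ (H : ℝ) ^ (2 : ℝ) := by
    rw [Real.rpow_two]
    have h1 : 2 * k - 1 ≤ H := by omega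
    have h2 : (2 * k - 1) ^ 2 ≤ H ^ 2 := Nat.pow_le_pow_left h1 2
    exact_mod_cast h2
  have hw : (k : ℝ) ^ (6 / 25 : ℝ) ≤ (H : ℝ) ^ (6 / 25 : ℝ) := Real.rpow_le_rpow hk0.le hHk (by norm_num)
  have h1 := hlong H ((2 * k - 1) ^ 2) hH0 hN
  have h2 := window (r := 3) (k := k) (N := (2 * k - 1) ^ 2) (L := H) (w := (k : ℝ) ^ (6 / 25 : ℝ))
    (w' := (H : ℝ) ^ (6 / 25 : ℝ)) (by omega) hw (hk2.trans_le hw) le_rfl (by omega)
  refine le_trans ?_ (h1.trans h2)
  calc δ / 2 * (k / Real.log k) = δ * (k / (2 * Real.log k)) := by field_simp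
    _ ≤ δ * (H / Real.log H) := by gcongr

/-- all intervals but few -/
theorem few : ∃ c : ℝ, 0 < c ∧ ∀ᶠ K : ℕ in atTop,
    (((Ioc K (2 * K)).filter (fun k : ℕ =>
      ((almost 2 ((k : ℝ) ^ (1 / 4 : ℝ)) k).card : ℝ) < c * (k / Real.log k))).card : ℝ) ≤
      (K : ℝ) ^ (1 / 4 : ℝ) := by
  classical
  obtain ⟨τ, hτ⟩ : ∃ τ : ℝ, τ = 557 / 1000 := ⟨_, rfl⟩
  obtain ⟨δ, hδ, X0, hfew⟩ := Pool.Agent.L5helper4.DL.fewLin 2 τ (τ / 4) (24 / 25 * τ) (8 / 9)
    (10005 / 10000) (by rw [hτ]; norm_num) (by rw [hτ]; norm_num) (by linarith) (by rw [hτ]; norm_num)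
    (by rw [hτ]; norm_num) (by rw [hτ]; norm_num) (by rw [hτ]; norm_num) (by norm_num)
    (Pool.Agent.Y882.KW.cond_A τ (8 / 9) (by rw [hτ]; norm_num) (by norm_num) (by norm_num))
    (by norm_num) (by rw [hτ]; norm_num) (1 / 2) (1 / 200) (by norm_num) (by rw [hτ]; norm_num)
    (by norm_num)
  refine ⟨δ / 4, by positivity, ?_⟩
  have tN : Tendsto (fun N : ℕ => (N : ℝ)) atTop atTop := tendsto_natCast_atTop_atTop
  have ev : ∀ᶠ K : ℕ in atTop, (400 : ℝ) ≤ (K : ℝ) ^ (1 / 100 : ℝ) :=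
    ((tendsto_rpow_atTop (by norm_num)).comp tN).eventually_ge_atTop _
  have ev2 : ∀ᶠ K : ℕ in atTop, (3 : ℝ) ≤ (K : ℝ) ^ (1 / 4 : ℝ) :=
    ((tendsto_rpow_atTop (by norm_num)).comp tN).eventually_ge_atTop _
  filter_upwards [eventually_ge_atTop (max X0 9), ev, ev2] with K hK hK400 hK3
  have hK9 : 9 ≤ K := (le_max_right _ _).trans hK
  have hKX0 : X0 ≤ K := (le_max_left _ _).trans hK
  have hKr : (9 : ℝ) ≤ K := by exact_mod_cast hK9
  have hK0 : (0 : ℝ) < K := by linarith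
  obtain ⟨X, hX⟩ : ∃ X, X = (4 * K + 1) ^ 2 := ⟨_, rfl⟩
  have hXr : (X : ℝ) = (4 * K + 1) ^ 2 := by rw [hX]; push_cast; ring
  have hXX0 : X0 ≤ X := by rw [hX]; nlinarith
  have h4K : (0 : ℝ) < 4 * K + 1 := by linarith
  have hXhalf : (X : ℝ) ^ (1 / 2 : ℝ) = 4 * K + 1 := by
    rw [hXr, ← Real.sqrt_eq_rpow, Real.sqrt_sq h4K.le]
  have hL : ⌊(X : ℝ) ^ (1 / 2 : ℝ)⌋₊ = 4 * K + 1 := by
    rw [hXhalf]
    have : ((4 * K + 1 : ℕ) : ℝ) = 4 * K + 1 := by push_cast; ring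
    rw [← this, Nat.floor_natCast]
  have hX1 : (1 : ℝ) < X := by rw [hXr]; nlinarith
  have hXp : (0 : ℝ) < X := by linarith
  have hlX : 0 < Real.log X := Real.log_pos hX1
  have hXpow : ∀ t : ℝ, (X : ℝ) ^ t = (4 * K + 1 : ℝ) ^ (2 * t) := by
    intro t
    rw [hXr, ← Real.rpow_natCast (4 * (K : ℝ) + 1) 2, ← Real.rpow_mul h4K.le]
    norm_num
  have hlXK : ∀ k : ℕ, K < k → Real.log X ≤ 4 * Real.log k := by
    intro k hk
    have hkr : (K : ℝ) + 1 ≤ k := by exact_mod_cast hk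
    have h1 : (X : ℝ) ≤ (k : ℝ) ^ 4 := by
      rw [hXr]
      have h2 : (4 * K + 1 : ℝ) ≤ (k : ℝ) ^ 2 := by nlinarith
      calc (4 * K + 1 : ℝ) ^ 2 ≤ ((k : ℝ) ^ 2) ^ 2 := pow_le_pow_left₀ h4K.le h2 2
        _ = _ := by ring
    have := Real.log_le_log hXp h1
    rw [Real.log_pow] at this
    exact_mod_cast this
  set Bad := (Ioc K (2 * K)).filter (fun k : ℕ =>
      ((almost 2 ((k : ℝ) ^ (1 / 4 : ℝ)) k).card : ℝ) < δ / 4 * (k / Real.log k)) with hBad
  -- the windows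
  have hdisj : ∀ k ∈ Bad, ∀ k' ∈ Bad, k ≠ k' →
      Disjoint (Icc ((2 * k - 1) ^ 2) ((2 * k - 1) ^ 2 + (4 * K - 1)))
        (Icc ((2 * k' - 1) ^ 2) ((2 * k' - 1) ^ 2 + (4 * K - 1))) := by
    have aux : ∀ k k' : ℕ, K < k → k < k' →
        Disjoint (Icc ((2 * k - 1) ^ 2) ((2 * k - 1) ^ 2 + (4 * K - 1)))
        (Icc ((2 * k' - 1) ^ 2) ((2 * k' - 1) ^ 2 + (4 * K - 1))) := by
      intro k k' h1 h2
      rw [disjoint_left]
      intro n hn hn'
      rw [mem_Icc] at hn hn'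
      have h3 : (2 * k + 1) ^ 2 ≤ (2 * k' - 1) ^ 2 := Nat.pow_le_pow_left (by omega) 2
      rw [sq_eq k (by omega)] at h3
      omega
    intro k hk k' hk' hne
    rw [hBad, mem_filter, mem_Ioc] at hk hk'
    rcases lt_or_gt_of_ne hne with h | h
    · exact aux k k' hk.1.1 h
    · exact (aux k' k hk'.1.1 h).symm
  have hsub : Bad.biUnion (fun k => Icc ((2 * k - 1) ^ 2) ((2 * k - 1) ^ 2 + (4 * K - 1))) ⊆
      (Icc 1 (2 * X)).filter (fun N => ((Pool.Agent.L5helper4.DL.alm 2 ((X : ℝ) ^ (τ / 4)) N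
        ⌊(X : ℝ) ^ (1 / 2 : ℝ)⌋₊).card : ℝ) < δ * (X : ℝ) ^ (1 / 2 : ℝ) / Real.log X) := by
    intro N hN
    rw [mem_biUnion] at hN
    obtain ⟨k, hk, hN⟩ := hN
    rw [hBad, mem_filter, mem_Ioc] at hk
    rw [mem_Icc] at hN
    obtain ⟨⟨hk1, hk2⟩, hk3⟩ := hk
    have hkr : (K : ℝ) + 1 ≤ k := by exact_mod_cast hk1
    have hk2r : (k : ℝ) ≤ 2 * K := by exact_mod_cast hk2
    have hk0 : (0 : ℝ) < k := by linarith
    have hlk : 0 < Real.log k := Real.log_pos (by linarith)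
    rw [mem_filter, mem_Icc, hL, hXhalf]
    refine ⟨⟨?_, ?_⟩, ?_⟩
    · have : 1 ≤ (2 * k - 1) ^ 2 := Nat.one_le_pow _ _ (by omega)
      omega
    · have h3 : (2 * k - 1) ^ 2 + 8 * k ≤ X := by
        rw [← sq_eq k (by omega), hX]
        exact Nat.pow_le_pow_left (by omega) 2
      omega
    · have hw : (k : ℝ) ^ (1 / 4 : ℝ) ≤ (X : ℝ) ^ (τ / 4) := by
        rw [hXpow]
        calc (k : ℝ) ^ (1 / 4 : ℝ) ≤ (4 * K + 1 : ℝ) ^ (1 / 4 : ℝ) :=
              Real.rpow_le_rpow hk0.le (by linarith) (by norm_num)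
          _ ≤ (4 * K + 1 : ℝ) ^ (2 * (τ / 4)) := by
              apply Real.rpow_le_rpow_of_exponent_le (by linarith)
              rw [hτ]
              norm_num
      have hw2 : 2 < (X : ℝ) ^ (τ / 4) := by
        have : (K : ℝ) ^ (1 / 4 : ℝ) ≤ (k : ℝ) ^ (1 / 4 : ℝ) :=
          Real.rpow_le_rpow hK0.le (by linarith) (by norm_num)
        linarith
      have h1 := window (r := 2) (k := k) (N := N) (L := 4 * K + 1) (w := (k : ℝ) ^ (1 / 4 : ℝ))
        (w' := (X : ℝ) ^ (τ / 4)) (by omega) hw hw2 hN.1 (by omega)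
      have h2 : (((Pool.Agent.L5helper4.DL.alm 2 ((X : ℝ) ^ (τ / 4)) N (4 * K + 1)).card : ℕ) : ℝ) ≤
          ((almost 2 ((k : ℝ) ^ (1 / 4 : ℝ)) k).card : ℝ) := by
        unfold Pool.Agent.L5helper4.DL.alm
        convert h1
      refine h2.trans_lt (hk3.trans_le ?_)
      rw [mul_div_assoc]
      calc δ / 4 * (k / Real.log k) = δ * (k / (4 * Real.log k)) := by field_simp
        _ ≤ δ * ((4 * K + 1) / Real.log X) := by
            have := hlXK k hk1
            gcongr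
            linarith
  have hcard := card_le_card hsub
  rw [card_biUnion hdisj] at hcard
  have h1 : ∀ k ∈ Bad, (Icc ((2 * k - 1) ^ 2) ((2 * k - 1) ^ 2 + (4 * K - 1))).card = 4 * K := by
    intro k _
    rw [Nat.card_Icc]
    omega
  rw [sum_congr rfl h1, sum_const, smul_eq_mul] at hcard
  have hcr : (Bad.card : ℝ) * (4 * K) ≤ (X : ℝ) ^ (2 * τ - 1 / 2 + 1 / 200) := by
    refine le_trans ?_ (hfew X hXX0)
    exact_mod_cast hcard
  have hpow : (X : ℝ) ^ (2 * τ - 1 / 2 + 1 / 200) ≤ 4 * K * (K : ℝ) ^ (1 / 4 : ℝ) := by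
    rw [hXpow]
    have e1 : 2 * (2 * τ - 1 / 2 + 1 / 200) = 1238 / 1000 := by rw [hτ]; norm_num
    rw [e1]
    calc (4 * K + 1 : ℝ) ^ (1238 / 1000 : ℝ) ≤ (5 * K : ℝ) ^ (1238 / 1000 : ℝ) :=
          Real.rpow_le_rpow h4K.le (by linarith) (by norm_num)
      _ = 5 ^ (1238 / 1000 : ℝ) * (K : ℝ) ^ (1238 / 1000 : ℝ) := Real.mul_rpow (by norm_num) hK0.le
      _ ≤ 5 ^ (2 : ℝ) * (K : ℝ) ^ (1238 / 1000 : ℝ) := by
          apply mul_le_mul_of_nonneg_right _ (by positivity)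
          exact Real.rpow_le_rpow_of_exponent_le (by norm_num) (by norm_num)
      _ = 25 * (K : ℝ) ^ (1238 / 1000 : ℝ) := by norm_num
      _ ≤ (K : ℝ) ^ (1 / 100 : ℝ) * (K : ℝ) ^ (1238 / 1000 : ℝ) := by
          apply mul_le_mul_of_nonneg_right _ (by positivity)
          linarith
      _ = (K : ℝ) ^ (1248 / 1000 : ℝ) := by
          rw [← Real.rpow_add hK0]
          norm_num
      _ ≤ (K : ℝ) ^ (1 + 1 / 4 : ℝ) := Real.rpow_le_rpow_of_exponent_le (by linarith) (by norm_num)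
      _ = K * (K : ℝ) ^ (1 / 4 : ℝ) := by rw [Real.rpow_add hK0, Real.rpow_one]
      _ ≤ 4 * K * (K : ℝ) ^ (1 / 4 : ℝ) := by
          apply mul_le_mul_of_nonneg_right _ (by positivity)
          linarith
  have h2 : (4 * K : ℝ) * Bad.card ≤ 4 * K * (K : ℝ) ^ (1 / 4 : ℝ) := by linarith
  exact le_of_mul_le_mul_left h2 (by positivity)

open Classical in
/-- **Between consecutive odd squares.** -/
theorem result (m : ℕ) :
    (∀ κ δ : ℝ, 0 < κ → 0 < δ → ∃ (B : ℕ) (c : ℝ), 0 < c ∧ ∀ᶠ k : ℕ in atTop, ∀ P ⊆ I k,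
      (∀ n ∈ P, ∀ q : ℕ, q.Prime → q ∣ n → (k : ℝ) ^ κ ≤ q) →
      δ * (k / Real.log k) ≤ P.card → Popular m B c k P) ∧
    ∃ (B : ℕ) (c : ℝ), 0 < c ∧
      (∀ᶠ k : ℕ in atTop, c * (k / Real.log k) ≤ ((almost 3 ((k : ℝ) ^ (6 / 25 : ℝ)) k).card : ℝ) ∧
        Popular m B c k (almost 3 ((k : ℝ) ^ (6 / 25 : ℝ)) k)) ∧
      ∀ᶠ K : ℕ in atTop, (((Ioc K (2 * K)).filter (fun k : ℕ =>
        ¬ (c * (k / Real.log k) ≤ ((almost 2 ((k : ℝ) ^ (1 / 4 : ℝ)) k).card : ℝ) ∧
          Popular m B c k (almost 2 ((k : ℝ) ^ (1 / 4 : ℝ)) k)))).card : ℝ) ≤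
        (K : ℝ) ^ (1 / 4 : ℝ) := by
  have mono : ∀ (B B' : ℕ) (c c' : ℝ) (k : ℕ) (P : Finset ℕ), B ≤ B' → c' ≤ c → 0 < c' →
      1 ≤ Real.log k → Popular m B c k P → Popular m B' c' k P := by
    intro B B' c c' k P hB hc hc' hlk hP D hD1 hD2
    have hpow : Real.log k ^ B ≤ Real.log k ^ B' := pow_le_pow_right₀ hlk hB
    have h1 := hP D (hpow.trans hD1)
      ((mul_le_mul_of_nonneg_left hpow (Nat.cast_nonneg _)).trans hD2)
    calc c' * D ≤ c * D := mul_le_mul_of_nonneg_right hc (Nat.cast_nonneg _)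
      _ ≤ _ := h1
      _ ≤ _ := by
          apply Nat.cast_le.2
          apply card_le_card
          intro d hd
          rw [mem_filter] at hd ⊢
          refine ⟨hd.1, fun F hF h0 => le_trans ?_ (hd.2 F hF h0)⟩
          gcongr
  refine ⟨fun κ δ h1 h2 => rel m κ δ h1 h2, ?_⟩
  obtain ⟨c₃, hc₃, h₃⟩ := every
  obtain ⟨c₂, hc₂, h₂⟩ := few
  obtain ⟨B₃, d₃, hd₃, g₃⟩ := rel m (6 / 25) c₃ (by norm_num) hc₃
  obtain ⟨B₂, d₂, hd₂, g₂⟩ := rel m (1 / 4) c₂ (by norm_num) hc₂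
  obtain ⟨c, hc⟩ : ∃ c, c = min (min c₃ d₃) (min c₂ d₂) := ⟨_, rfl⟩
  have hc0 : 0 < c := by rw [hc]; exact lt_min (lt_min hc₃ hd₃) (lt_min hc₂ hd₂)
  have hcc3 : c ≤ c₃ := by rw [hc]; exact (min_le_left _ _).trans (min_le_left _ _)
  have hcd3 : c ≤ d₃ := by rw [hc]; exact (min_le_left _ _).trans (min_le_right _ _)
  have hcc2 : c ≤ c₂ := by rw [hc]; exact (min_le_right _ _).trans (min_le_left _ _)
  have hcd2 : c ≤ d₂ := by rw [hc]; exact (min_le_right _ _).trans (min_le_right _ _)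
  have tN : Tendsto (fun N : ℕ => (N : ℝ)) atTop atTop := tendsto_natCast_atTop_atTop
  have hlog : ∀ᶠ k : ℕ in atTop, 1 ≤ Real.log k :=
    (Real.tendsto_log_atTop.comp tN).eventually_ge_atTop 1
  refine ⟨max B₃ B₂, c, hc0, ?_, ?_⟩
  · filter_upwards [h₃, g₃, hlog] with k h3 g3 hlk
    refine ⟨le_trans ?_ h3, ?_⟩
    · gcongr
    · exact mono B₃ _ d₃ c k _ (le_max_left _ _) hcd3 hc0 hlk (g3 _ (fun n hn => (mem_almost hn).1)
        (fun n hn => (mem_almost hn).2) h3)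
  · obtain ⟨K₀, hK₀⟩ := eventually_atTop.1 (g₂.and hlog)
    filter_upwards [h₂, eventually_ge_atTop K₀] with K h2 hK
    refine le_trans ?_ h2
    apply Nat.cast_le.2
    apply card_le_card
    intro k hk
    rw [mem_filter] at hk ⊢
    refine ⟨hk.1, ?_⟩
    by_contra hcon
    rw [not_lt] at hcon
    obtain ⟨g2, hlk⟩ := hK₀ k (by have := (mem_Ioc.1 hk.1).1; omega)
    apply hk.2
    refine ⟨le_trans ?_ hcon, ?_⟩
    · gcongr
    · exact mono B₂ _ d₂ c k _ (le_max_right _ _) hcd2 hc0 hlk (g2 _ (fun n hn => (mem_almost hn).1)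
        (fun n hn => (mem_almost hn).2) hcon)

end Pool.Agent.Results.MP_5f6ee5_nt.PopularDifferences
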