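import Pool.Agent.L5helper11.MD.Short

/-!
# Almost primes with prescribed decimal digits between consecutive odd squares

Between `(2 k - 1) ^ 2` and `(2 k + 1) ^ 2` the last `N = ⌊log_10 (4 k)⌋` decimal digits are free.  At most `N / 12` of
them, at arbitrary places, may be prescribed in an arbitrary way (the last digit, if it is prescribed, has to be `1`,
`3`, `7` or `9`): the interval contains numbers with these digits and at most three prime factors, and their number has
the right order of magnitude.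

Method.  The numbers with the prescribed digits in a block of length `10 ^ N` have the level of distribution
`10 ^ (0.785 N)`: an `L ^ 1` bound for their exponential sum on the Farey fractions, windows with few prescribed places,
and a saving in many windows for the small denominators (`Pool.Agent.L5helper11.MD`); then Richert's weights, in the
form of `Pool.Agent.Y882.KW` (helper882).
-/

set_option autoImplicit false

namespace Pool.Agent.Results.MP_5f6ee5_nt.PrescribedDigits

open Finset Filter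
open Pool.Agent.L5helper11.MD

/-- There is `c > 0` such that for all large `k`, for the `N` with `10 ^ N ≤ 4 k < 10 ^ (N + 1)`, for every set `P` of
at most `N / 12` of the places `0, …, N - 1` and all decimal digits `e i`, `i ∈ P` (with `e 0 ∈ {1, 3, 7, 9}` if
`0 ∈ P`), at least `c * 10 ^ (N - |P|) / N` of the integers `n` with `(2 k - 1) ^ 2 < n < (2 k + 1) ^ 2` have the decimal
digit `e i` at the place `i` (the coefficient of `10 ^ i`) for all `i ∈ P`, and at most three prime factors counted with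
multiplicity, all of them at least `10 ^ (39 N / 200)`. -/
theorem result : ∃ c : ℝ, 0 < c ∧ ∀ᶠ k : ℕ in atTop, ∀ N : ℕ, 10 ^ N ≤ 4 * k → 4 * k < 10 ^ (N + 1) →
    ∀ P : Finset ℕ, P ⊆ range N → 12 * P.card ≤ N →
    ∀ e : ℕ → ℕ, (∀ i ∈ P, e i ≤ 9) → (0 ∈ P → e 0 = 1 ∨ e 0 = 3 ∨ e 0 = 7 ∨ e 0 = 9) →
    c * 10 ^ (N - P.card) / N ≤ (((Ioo ((2 * k - 1) ^ 2) ((2 * k + 1) ^ 2)).filter (fun n =>
      (∀ i ∈ P, n / 10 ^ i % 10 = e i) ∧ n.primeFactorsList.length ≤ 3 ∧
      ∀ p ∈ n.primeFactorsList, (10 : ℝ) ^ (39 / 200 * (N : ℝ)) ≤ ((p : ℕ) : ℝ))).card : ℝ) := by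
  classical
  obtain ⟨δ, hδ, H⟩ := shortD
  obtain ⟨N0, hN0⟩ := eventually_atTop.1 H
  refine ⟨δ / 10, by positivity, ?_⟩
  filter_upwards [eventually_ge_atTop (10 ^ (max N0 20 + 1))] with k hk N hN1 hN2 P hPN hP e he he0
  -- `N` is large
  have hNlarge : max N0 20 < N + 1 := by
    have h1 : 10 ^ (max N0 20 + 1) < 10 ^ (N + 1) := by omega
    have h2 := (Nat.pow_lt_pow_iff_right (by norm_num : 1 < 10)).1 h1
    omega
  have hNN0 : N0 ≤ N := by
    have := le_max_left N0 20
    omega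
  have hN20 : 20 ≤ N := by
    have := le_max_right N0 20
    omega
  have hNr : (20 : ℝ) ≤ N := by exact_mod_cast hN20
  have hNpos : (0 : ℝ) < N := by linarith
  have h10 : 0 < 10 ^ N := by positivity
  have hk1 : 1 ≤ k := le_trans (Nat.one_le_pow _ _ (by norm_num)) hk
  -- the block
  obtain ⟨M, hMdef⟩ : ∃ M, M = (2 * k - 1) ^ 2 / 10 ^ N + 1 := ⟨_, rfl⟩
  have hMlow : (2 * k - 1) ^ 2 < M * 10 ^ N := by
    have h1 := Nat.lt_mul_div_succ ((2 * k - 1) ^ 2) h10
    rw [hMdef]
    calc (2 * k - 1) ^ 2 < 10 ^ N * ((2 * k - 1) ^ 2 / 10 ^ N + 1) := h1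
      _ = _ := Nat.mul_comm _ _
  have hMup0 : (M - 1) * 10 ^ N ≤ (2 * k - 1) ^ 2 := by
    rw [hMdef, Nat.add_sub_cancel]
    exact Nat.div_mul_le_self _ _
  have hMup : (M + 1) * 10 ^ N ≤ (2 * k + 1) ^ 2 := by
    have e1 : (M + 1) * 10 ^ N = (M - 1) * 10 ^ N + 2 * 10 ^ N := by
      rw [hMdef, Nat.add_sub_cancel]
      ring
    have e2 : (2 * k + 1) ^ 2 = (2 * k - 1) ^ 2 + 8 * k := by
      obtain ⟨m, rfl⟩ : ∃ m, k = m + 1 := ⟨k - 1, by omega⟩
      have : 2 * (m + 1) - 1 = 2 * m + 1 := by omega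
      rw [this]
      ring
    calc (M + 1) * 10 ^ N = (M - 1) * 10 ^ N + 2 * 10 ^ N := e1
      _ ≤ (2 * k - 1) ^ 2 + 2 * (4 * k) := Nat.add_le_add hMup0 (Nat.mul_le_mul_left 2 hN1)
      _ = (2 * k + 1) ^ 2 := by rw [e2]; ring
  have hM1 : 1 ≤ M := by
    rw [hMdef]
    exact Nat.le_add_left _ _
  have hMr : (M : ℝ) + 1 ≤ (10 : ℝ) ^ ((23 / 20 : ℝ) * N) := by
    have h1 : (M + 1) * 10 ^ N ≤ (10 ^ (N + 1)) ^ 2 := by
      have h2 : 2 * k + 1 ≤ 10 ^ (N + 1) := by omega
      exact hMup.trans (Nat.pow_le_pow_left h2 2)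
    have h3 : (M + 1) * 10 ^ N ≤ 10 ^ (N + 2) * 10 ^ N := by
      refine h1.trans (le_of_eq ?_)
      rw [← pow_mul, ← pow_add]
      congr 1
      ring
    have h4 : M + 1 ≤ 10 ^ (N + 2) := Nat.le_of_mul_le_mul_right h3 h10
    have h5 : (M : ℝ) + 1 ≤ (10 : ℝ) ^ (N + 2) := by exact_mod_cast h4
    refine h5.trans ?_
    rw [← Real.rpow_natCast]
    apply Real.rpow_le_rpow_of_exponent_le (by norm_num)
    push_cast
    linarith
  set P' : ℕ → Prop := fun i => i ∈ P ∨ i = 0 with hP'
  set e' : ℕ → ℕ := fun i => if i ∈ P then e i else 1 with he'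
  have hnp : np N P' ≤ P.card + 1 := by
    refine (np_le_card (S := insert 0 P) ?_).trans (card_insert_le _ _)
    intro i _ hi
    rw [mem_insert]
    exact hi.symm
  have hfr : N ≤ fr N P' + P.card + 1 := by
    have := np_add_fr N P'
    omega
  have h := hN0 N hNN0 M hM1 hMr P' e' (by
    intro i
    rw [he']
    simp only
    split_ifs with h
    · have := he i h
      omega
    · norm_num) (by omega) (Or.inr rfl) (by
    rw [he']
    simp only
    split_ifs with h
    · exact he0 h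
    · exact Or.inl rfl)
  have h1 : δ / 10 * 10 ^ (N - P.card) / N ≤ δ * 10 ^ fr N P' / N := by
    apply div_le_div_of_nonneg_right _ hNpos.le
    have h2 : (10 : ℝ) ^ (N - P.card) ≤ 10 ^ (fr N P' + 1) := pow_le_pow_right₀ (by norm_num) (by omega)
    rw [pow_succ] at h2
    nlinarith
  refine h1.trans (h.trans ?_)
  have hcard : ((Cs N P' e').filter (fun n : ℕ => (n + M * 10 ^ N).primeFactorsList.length ≤ 3 ∧
      ∀ p : ℕ, p.Prime → p ∣ n + M * 10 ^ N → (((10 ^ N : ℕ) : ℝ)) ^ (39 / 50 / 4 : ℝ) ≤ p)).card ≤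
      ((Ioo ((2 * k - 1) ^ 2) ((2 * k + 1) ^ 2)).filter (fun n =>
      (∀ i ∈ P, n / 10 ^ i % 10 = e i) ∧ n.primeFactorsList.length ≤ 3 ∧
      ∀ p ∈ n.primeFactorsList, (10 : ℝ) ^ (39 / 200 * (N : ℝ)) ≤ ((p : ℕ) : ℝ))).card := by
    apply card_le_card_of_injOn (fun n => n + M * 10 ^ N)
    · intro m hm
      rw [mem_coe, mem_filter] at hm
      obtain ⟨hmC, h3, h4⟩ := hm
      rw [mem_Cs] at hmC
      rw [mem_coe, mem_filter, mem_Ioo]
      have e1 : m + M * 10 ^ N < (2 * k + 1) ^ 2 := by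
        calc m + M * 10 ^ N < 10 ^ N + M * 10 ^ N := Nat.add_lt_add_right hmC.1 _
          _ = (M + 1) * 10 ^ N := by ring
          _ ≤ _ := hMup
      refine ⟨⟨hMlow.trans_le (Nat.le_add_left _ _), e1⟩, ?_, h3, ?_⟩
      · intro i hi
        have h5 := hmC.2 i (mem_range.1 (hPN hi)) (Or.inl hi)
        rw [mul_comm M, digit_low (mem_range.1 (hPN hi)), h5, he']
        simp only
        rw [if_pos hi]
      · intro p hp
        rw [Nat.mem_primeFactorsList (by positivity)] at hp
        have h5 := h4 p hp.1 hp.2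
        refine le_trans (le_of_eq ?_) h5
        push_cast
        rw [← Real.rpow_natCast, ← Real.rpow_mul (by norm_num)]
        congr 1
        ring
    · intro x _ y _ hxy
      simpa using hxy
  exact_mod_cast hcard

end Pool.Agent.Results.MP_5f6ee5_nt.PrescribedDigits
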