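import Pool.Agent.R490.Tup

set_option autoImplicit false

/-!
# Between consecutive odd squares: regular points of the prime pairs and tuples, uniformly in the shifts

Let `I_k = ((2 k - 1) ^ 2, (2 k + 1) ^ 2)` and let `H` be any admissible set of `ℓ ≥ 2` shifts `≤ k ^ A`. The set of
the `m` in `I_k` for which all `m + h`, `h ∈ H`, are primes should have density of order
`V = ∏ (1 - ν(p) / p)` (the product over the primes `p ≤ (8 k) ^ (1 / r)`, where `ν(p)` is the number of classes modulo `p`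
occupied by `H`) around its elements.  For this set `S`, and for ANY subset, all but at most `ε k V` of the elements
`m` in `I_k` are regular points: all intervals around `m` up to the length `8 k - 1` of `I_k` contain the right order
of elements of `S`, and for all but a bounded number of the scales `2 ^ j` the set `S` has an almost constant density
on both sides of `m`.
-/

namespace Pool.Agent.Results.MP_5f6ee5_nt.RegularTuples

open Finset Filter

/-- No `m + h`, `h ∈ H`, has a prime factor `≤ z`. -/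
def Good (H : Finset ℕ) (z m : ℕ) : Prop := ∀ p : ℕ, p.Prime → p ≤ z → ∀ h ∈ H, ¬ p ∣ m + h

open Classical in
/-- The number of the residue classes `m mod p` for which `p` divides some `m + h`, `h ∈ H`. -/
noncomputable def nu (H : Finset ℕ) (p : ℕ) : ℕ := ((range p).filter (fun m => ∃ h ∈ H, p ∣ m + h)).card

/-- The product of `1 - nu(p) / p` over the primes `p ≤ z`. -/
noncomputable def V (H : Finset ℕ) (z : ℕ) : ℝ :=
  ∏ p ∈ (range (z + 1)).filter Nat.Prime, (1 - (nu H p : ℝ) / p)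

open Classical in
/-- The number of elements of `S` in `(a, b]`. -/
noncomputable def count (S : Set ℕ) (a b : ℕ) : ℕ := ((Finset.Ioc a b).filter (fun m => m ∈ S)).card

/-- All intervals `(m - s, m + t]` with `s, t ≤ Y` of length at least `L / κ` contain between
`κ (s + t) / L` and `(s + t) / (κ L)` elements of `S`. -/
def RightOrder (S : Set ℕ) (L κ : ℝ) (Y m : ℕ) : Prop :=
  ∀ s t : ℕ, s ≤ Y → t ≤ Y → L ≤ κ * (s + t) →
    κ * (s + t) / L ≤ count S (m - s) (m + t) ∧ (count S (m - s) (m + t) : ℝ) ≤ (s + t) / (κ * L)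

/-- Up to `δ`, `S` has a constant density on both sides of `m` up to the distance `2 ^ j`. -/
def ConstantDensity (S : Set ℕ) (L κ δ : ℝ) (m j : ℕ) : Prop :=
  ∃ lam : ℝ, κ ≤ lam ∧ lam ≤ 1 / κ ∧ ∀ s t : ℕ, s ≤ 2 ^ j → t ≤ 2 ^ j →
    |(count S (m - s) (m + t) : ℝ) - lam * (s + t) / L| ≤ δ * 2 ^ j / L

open Classical in
/-- The number of the scales `L ≤ 2 ^ j ≤ Y` without this property. -/
noncomputable def badScales (S : Set ℕ) (L κ δ : ℝ) (Y m : ℕ) : ℕ :=
  ((Finset.range (Nat.log 2 Y + 1)).filter (fun j => L ≤ (2 : ℝ) ^ j ∧ ¬ ConstantDensity S L κ δ m j)).card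

/-- The elements of `S` that are not regular points of `S`. -/
def Irregular (S : Set ℕ) (L κ δ : ℝ) (M Y : ℕ) : Set ℕ :=
  {m | m ∈ S ∧ ¬ (RightOrder S L κ Y m ∧ badScales S L κ δ Y m ≤ M)}

open Classical in
lemma V_eq (H : Finset ℕ) (z : ℕ) : Pool.Agent.R490.Tu.De H z = V H z := by
  unfold Pool.Agent.R490.Tu.De V nu
  apply Finset.prod_congr rfl
  intro p _
  congr!

open Classical in
/-- **Regular points of arbitrary sets of prime tuples between consecutive odd squares.** Let `ℓ ≥ 2`. (1) If all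
`m + h`, `h ∈ H`, are primes `> z` then `m` satisfies `Good H z m`. (2) For all `A` there is `r0` such that for
`r ≥ r0` and `ε > 0` there is `κ > 0`, and for `δ > 0` there is `M`, such that for all large `k`, `z = (8 k) ^ (1 / r)`,
ALL admissible sets `H` of `ℓ` shifts `≤ k ^ A` and EVERY set `S` of `m` with `Good H z m`, all but at most `ε k V`
of the elements of `S` between `(2 k - 1) ^ 2` and `(2 k + 1) ^ 2` are regular points of `S` (with `L = 1 / V` and
`Y = 8 k - 1`). -/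
theorem result :
    (∀ (H : Finset ℕ) (z m : ℕ), (∀ h ∈ H, (m + h).Prime ∧ z < m + h) → Good H z m) ∧
    ∀ (ℓ A : ℕ), 2 ≤ ℓ →
    ∃ r0 : ℕ, 2 ≤ r0 ∧ ∀ r : ℕ, r0 ≤ r → ∀ ε : ℝ, 0 < ε → ∃ κ : ℝ, 0 < κ ∧
      ∀ δ : ℝ, 0 < δ → ∃ M : ℕ, ∀ᶠ k : ℕ in atTop, ∀ z : ℕ, z = ⌊(8 * k : ℝ) ^ (1 / (r : ℝ))⌋₊ →
      ∀ H : Finset ℕ, H.card = ℓ → (∀ h ∈ H, h ≤ k ^ A) →
      (∀ p : ℕ, p.Prime → ∃ m : ℕ, ∀ h ∈ H, ¬ p ∣ m + h) →
      ∀ S : Set ℕ, (∀ m ∈ S, Good H z m) →
        (((Ioo ((2 * k - 1) ^ 2) ((2 * k + 1) ^ 2)).filter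
          (fun m => m ∈ Irregular S (1 / V H z) κ δ M (8 * k - 1))).card : ℝ) ≤ ε * (k * V H z) := by
  refine ⟨?_, ?_⟩
  · intro H z m hH p hp hpz h hh hd
    have h2 := (Nat.prime_dvd_prime_iff_eq hp (hH h hh).1).1 hd
    have := (hH h hh).2
    omega
  · intro ℓ A hℓ
    obtain ⟨r0, hr0, h0⟩ := Pool.Agent.R490.Tu.regU ℓ A hℓ (1 / 2) (by norm_num)
    refine ⟨r0, hr0, fun r hr ε hε => ?_⟩
    obtain ⟨κ, hκ, h1⟩ := h0 r hr (ε / 8) (by positivity)
    refine ⟨κ, hκ, fun δ hδ => ?_⟩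
    obtain ⟨M, h2⟩ := h1 δ hδ
    refine ⟨M, ?_⟩
    have ht : Tendsto (fun k : ℕ => 8 * k) atTop atTop := tendsto_id.const_mul_atTop' (by norm_num)
    filter_upwards [ht.eventually h2, eventually_ge_atTop 4] with k hk hk4
    intro z hz H hH hHk hadm S hS
    have hz' : z = ⌊((8 * k : ℕ) : ℝ) ^ (1 / (r : ℝ))⌋₊ := by
      rw [hz]
      push_cast
      rfl
    have hu : (2 * k - 1) ^ 2 = 4 * k ^ 2 - 4 * k + 1 := by
      obtain ⟨m, rfl⟩ : ∃ m, k = m + 1 := ⟨k - 1, by omega⟩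
      have e1 : 2 * (m + 1) - 1 = 2 * m + 1 := by omega
      have e2 : 4 * (m + 1) ^ 2 = 4 * (m + 1) + (4 * m ^ 2 + 4 * m) := by ring
      rw [e1, e2, Nat.add_sub_cancel_left]
      ring
    have hkk : 4 * k ≤ k ^ 2 := by nlinarith
    have hb : (2 * k - 1) ^ 2 + (8 * k - 1) + 1 = (2 * k + 1) ^ 2 := by
      have e3 : (2 * k + 1) ^ 2 = 4 * k ^ 2 + 4 * k + 1 := by ring
      rw [hu, e3]
      omega
    have hY1 : ((8 * k : ℕ) : ℝ) ^ (1 / 2 : ℝ) ≤ ((8 * k - 1 : ℕ) : ℝ) := by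
      have h3 : (8 * k : ℕ) ≤ (8 * k - 1) ^ 2 := by
        obtain ⟨m, hm⟩ : ∃ m, 8 * k - 1 = m := ⟨_, rfl⟩
        have hm2 : 8 * k = m + 1 := by omega
        rw [hm, hm2]
        have : 2 ≤ m := by omega
        nlinarith
      rw [← Real.sqrt_eq_rpow]
      rw [Real.sqrt_le_left (Nat.cast_nonneg _)]
      exact_mod_cast h3
    have h3 := hk H hH (fun h hh => (hHk h hh).trans (Nat.pow_le_pow_left (by omega) A)) hadm z hz'
      ((2 * k - 1) ^ 2) (8 * k - 1) hY1 (by omega) (by rw [hu]; omega) S hS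
    rw [V_eq] at h3
    have hV : 0 ≤ V H z := by
      unfold V
      apply Finset.prod_nonneg
      intro p hp
      rw [mem_filter] at hp
      have hp0 : (0 : ℝ) < p := by exact_mod_cast hp.2.pos
      rw [sub_nonneg, div_le_one hp0]
      have : nu H p ≤ p := by
        unfold nu
        exact (Finset.card_filter_le _ _).trans (by rw [card_range])
      exact_mod_cast this
    have e4 : (((Ioo ((2 * k - 1) ^ 2) ((2 * k + 1) ^ 2)).filter
          (fun m => m ∈ Irregular S (1 / V H z) κ δ M (8 * k - 1))).card : ℝ) =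
        (Pool.Agent.R490.Sg.cnt (Pool.Agent.R490.Sg.Irregular S (1 / V H z) κ δ M (8 * k - 1))
          ((2 * k - 1) ^ 2) ((2 * k - 1) ^ 2 + (8 * k - 1)) : ℝ) := by
      unfold Pool.Agent.R490.Sg.cnt
      congr 2
      ext m
      rw [mem_filter, mem_filter, mem_Ioo, mem_Ioc, ← hb]
      constructor
      · rintro ⟨⟨a1, a2⟩, a3⟩
        exact ⟨⟨a1, by omega⟩, a3⟩
      · rintro ⟨⟨a1, a2⟩, a3⟩
        exact ⟨⟨a1, by omega⟩, a3⟩
    rw [e4]
    refine h3.trans ?_
    have e5 : ((8 * k - 1 : ℕ) : ℝ) ≤ 8 * k := by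
      have : (8 * k - 1 : ℕ) ≤ 8 * k := by omega
      exact_mod_cast this
    calc ε / 8 * (((8 * k - 1 : ℕ) : ℝ) * V H z) ≤ ε / 8 * ((8 * k) * V H z) := by gcongr
      _ = ε * (k * V H z) := by ring

end Pool.Agent.Results.MP_5f6ee5_nt.RegularTuples
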